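import Pool.Agent.H97.RL.Targets
import Pool.Agent.H20.RKS.RUN

/-! (PCB) the path through a piece which is almost regular. -/

set_option autoImplicit false

open Finset Pool.Agent.H97.RK Pool.Agent.H97.RL Pool.Agent.H20.RKS

namespace Pool.Agent.H78.RLM

theorem fal_some {n : ℕ} {C : Clause n} {y : Fin n → Bool} (h : Falsified C y) {v : Fin n}
    {b : Bool} (hb : fal C v = some b) : y v = b := by
  unfold fal at hb
  split_ifs at hb with h1 h2
  · have h3 := h _ h1
    have h4 : false = b := Option.some.inj hb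
    rw [← h4]
    simpa using h3
  · have h3 := h _ h2
    have h4 : true = b := Option.some.inj hb
    rw [← h4]
    simpa using h3

theorem fal_none {n : ℕ} {C : Clause n} {v : Fin n} (hb : fal C v = none) : v ∉ vs C := by
  unfold fal at hb
  split_ifs at hb with h1 h2
  intro hv
  unfold vs at hv
  rw [Finset.mem_image] at hv
  obtain ⟨⟨w, s⟩, hw, hws⟩ := hv
  change w = v at hws
  subst hws
  cases s
  · exact h2 hw
  · exact h1 hw

theorem fls_congr {n : ℕ} {C : Clause n} {y y' : Fin n → Bool} (h : Falsified C y)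
    (he : ∀ u ∈ vs C, y' u = y u) : Falsified C y' := by
  intro l hl
  rw [he l.1 (Finset.mem_image_of_mem _ hl)]
  exact h l hl

/-- the number of the variables outside `B` at which `y` and `z` differ -/
def cnt {n : ℕ} (B : Finset (Fin n)) (y z : Fin n → Bool) : ℕ :=
  (univ.filter fun v => v ∉ B ∧ y v ≠ z v).card

theorem cnt_le {n : ℕ} (B : Finset (Fin n)) (y y' z : Fin n → Bool) :
    cnt B y' z ≤ cnt B y z + dst y' y := by
  unfold cnt dst
  refine (Finset.card_le_card ?_).trans (Finset.card_union_le _ _)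
  intro u hu
  rw [Finset.mem_filter] at hu
  rw [Finset.mem_union, Finset.mem_filter, Finset.mem_filter]
  by_cases h : y' u = y u
  · left
    exact ⟨Finset.mem_univ _, hu.2.1, by rw [← h]; exact hu.2.2⟩
  · right
    exact ⟨Finset.mem_univ _, h⟩

/-- a line with many variables serves -/
theorem ser_of {n : ℕ} {C C' : Clause n} {t d N : ℕ} {x z y₀ y y' : Fin n → Bool}
    {A₀ : Finset (Fin n)} (hC : Falsified C y) (hy : ∀ u ∈ A₀, y u = y₀ u)
    (hC' : Falsified C' y') (hy' : ∀ u ∈ A₀, y' u = y₀ u) (hx : dst y₀ x ≤ t)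
    (hN : cnt (A₀ ∪ vs C) y' z ≤ N) (hw : n ≤ (A₀ ∪ vs C').card + 3 * d) :
    Ser C (fal C') (t + N + 3 * d) x z A₀ := by
  refine ⟨y, hC, (univ.filter fun v => y₀ v ≠ x v) ∪
    (univ.filter fun v => v ∉ A₀ ∪ vs C ∧ y' v ≠ z v) ∪ (A₀ ∪ vs C')ᶜ, ?_, ?_⟩
  · have h1 := Finset.card_union_le ((univ.filter fun v => y₀ v ≠ x v) ∪
      (univ.filter fun v => v ∉ A₀ ∪ vs C ∧ y' v ≠ z v)) (A₀ ∪ vs C')ᶜ
    have h2 := Finset.card_union_le (univ.filter fun v => y₀ v ≠ x v)
      (univ.filter fun v => v ∉ A₀ ∪ vs C ∧ y' v ≠ z v)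
    have h3 : (A₀ ∪ vs C')ᶜ.card = n - (A₀ ∪ vs C').card := by
      rw [Finset.card_compl, Fintype.card_fin]
    unfold dst at hx
    unfold cnt at hN
    omega
  · intro v hv
    rw [Finset.mem_union, Finset.mem_union, Finset.mem_filter, Finset.mem_filter,
      Finset.mem_compl] at hv
    push Not at hv
    obtain ⟨⟨h1, h2⟩, h3⟩ := hv
    have h1 := h1 (Finset.mem_univ _)
    have h2 := h2 (Finset.mem_univ _)
    refine ⟨fun _ hvA => ?_, fun hvC => ⟨fun b hb => ⟨fun hvA => ?_, fun hvA => ?_⟩,
      fun hnone => ?_⟩⟩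
    · rw [hy v hvA, h1]
    · rw [← fal_some hC' hb, hy' v hvA, h1]
    · rw [← fal_some hC' hb]
      refine (h2 ?_).symm
      rw [Finset.mem_union]
      exact fun h => h.elim hvA hvC
    · have h4 := fal_none hnone
      rw [Finset.mem_union] at h3
      exact h3.resolve_right h4

theorem ser_mono {n : ℕ} {C : Clause n} {P : Fin n → Option Bool} {q q' : ℕ}
    {x z : Fin n → Bool} {A : Finset (Fin n)} (h : Ser C P q x z A) (hq : q ≤ q') :
    Ser C P q' x z A := by
  obtain ⟨y, hy, D, hD, h⟩ := h
  exact ⟨y, hy, D, hD.trans hq, h⟩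

theorem pf_PCB (hSTQ : T_STQ) (hRST : T_RST) (hFGT : T_FGT) : T_PCB := by
  intro n k m F j t d e s₀ hP hd hde S r line rule href U R hseg x z y₀ A₀ l hlS hlr hlU hx hAt
  obtain ⟨y, W₁, J₁, hst, hy0, hfal, hcard⟩ := hAt
  have ht1 := hP.t1
  have hed := hP.ed
  have hte := hP.te
  have hW₁ : W₁.card ≤ e := by
    have h1 := hst.crd
    have h2 := hst.lt
    have h3 : j * J₁.card ≤ j * t := Nat.mul_le_mul_left _ h2.le
    exact h1.trans (h3.trans hP.je)
  set B₀ : Finset (Fin n) := A₀ ∪ vs (line l) with hB₀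
  -- the start
  obtain ⟨ys, hys⟩ : ∃ ys : Fin n → Bool, ys = fun v => if v ∈ B₀ ∪ W₁ then y v else z v :=
    ⟨_, rfl⟩
  have hys1 : ∀ u ∈ B₀ ∪ W₁, ys u = y u := fun u hu => by
    rw [hys]
    exact if_pos hu
  have hst1 : St F j t ys B₀ W₁ J₁ := hRST n k m F j t y ys B₀ W₁ J₁ hst hys1
  have hfal1 : Falsified (line l) ys := fls_congr hfal fun u hu =>
    hys1 u (Finset.mem_union_left _ (Finset.mem_union_right _ hu))
  have hys0 : ∀ u ∈ A₀, ys u = y₀ u := fun u hu => by
    rw [hys1 u (Finset.mem_union_left _ (Finset.mem_union_left _ hu)), hy0 u hu]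
  have hcnt : cnt B₀ ys z ≤ e := by
    refine le_trans (Finset.card_le_card ?_) hW₁
    intro v hv
    rw [Finset.mem_filter] at hv
    by_contra hvW
    apply hv.2.2
    rw [hys]
    apply if_neg
    rw [Finset.mem_union]
    exact fun h => h.elim hv.2.1 hvW
  by_cases hn : n ≤ B₀.card + 3 * d
  · left
    refine ⟨l, hlS, ser_mono (ser_of hfal1 hys0 hfal1 hys0 hx hcnt hn) ?_⟩
    have h1 : 2 * t * 1 ≤ 2 * t * (n * R / d + 1) :=
      Nat.mul_le_mul_left _ (Nat.le_add_left 1 _)
    omega
  push Not at hn
  have key : ∀ i, i < S → ∀ (l0 q : List (Fin n)) (A B W : Finset (Fin n)) (J : Finset (Fin m))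
      (y' : Fin n → Bool) (p : ℕ), i ≤ l → Seg rule U l i (q ++ l0) → St F j t y' A W J →
      Falsified (line i) y' → vs (line i) ⊆ A → A₀ ⊆ A → A ⊆ B ∪ q.toFinset →
      B.card + 3 * d < n → (∀ u ∈ A₀, y' u = y₀ u) → A.card + 1 + e + d ≤ n →
      cnt B₀ y' z ≤ e + 2 * t * p + J.card → p * d ≤ ph R l0 →
      (∃ i, i < S ∧ Ser (line l) (fal (line i)) (5 * d + 2 * t * (n * R / d + 1)) x z A₀) ∨
        ∃ l', l' < l ∧ l' ∈ U ∧ At F j t d e line y₀ A₀ l' := by
    intro i
    induction i using Nat.strong_induction_on with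
    | _ i ih =>
      intro hi l0 q A B W J y' p hil hsg hst' hfal' hvs hA₀ hAB hB hy' hAc hct hph
      obtain ⟨-, i', y'', A', W', J', hi', hst'', hfal'', hvs', hAc', hyy, hdst, hor⟩ :=
        hSTQ n k m F j t d e s₀ hP S r line rule href i y' A W J hi hst' hfal' hvs hAc
      have hi'S : i' < S := hi'.trans hi
      have hAA' : A ⊆ A' := by
        rcases hor with ⟨-, h⟩ | ⟨v, a, h, -⟩
        · rw [h]
        · rw [h]
          exact Finset.subset_insert _ _
      have hA₀' : A₀ ⊆ A' := hA₀.trans hAA'
      have hy'' : ∀ u ∈ A₀, y'' u = y₀ u := fun u hu => by rw [hyy u (hA₀ hu), hy' u hu]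
      have hsub : A₀ ∪ vs (line i') ⊆ A' := Finset.union_subset hA₀' hvs'
      have hct' : cnt B₀ y'' z ≤ e + 2 * t * p + J'.card := by
        have := cnt_le B₀ y' y'' z
        omega
      have hJ' := hst''.lt
      by_cases hiU : i' ∈ U
      · -- a line of `U`
        right
        obtain ⟨y3, W3, J3, hst3, heq3, -⟩ :=
          hFGT n k m F j t d e s₀ hP y'' A' (A₀ ∪ vs (line i')) W' J' hst'' hsub (by
            have := Finset.card_le_card hsub
            omega)
        refine ⟨i', lt_of_lt_of_le hi' hil, hiU, y3, W3, J3, hst3, fun u hu => ?_, ?_, ?_⟩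
        · rw [heq3 u (Finset.mem_union_left _ hu), hy'' u hu]
        · exact fls_congr hfal'' fun u hu => heq3 u (Finset.mem_union_right _ hu)
        · have := Finset.card_le_card hsub
          omega
      · -- the piece goes on
        obtain ⟨q', hq', hsg'⟩ : ∃ q' : List (Fin n), A' = A ∪ q'.toFinset ∧
            Seg rule U l i' (q' ++ (q ++ l0)) := by
          rcases hor with ⟨h1, h2⟩ | ⟨v, a, h1, h2⟩
          · exact ⟨[], by simp [h2], Seg.weak hsg h1 hiU⟩
          · refine ⟨[v], ?_, ?_⟩
            · rw [h1]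
              ext w
              simp
            · rcases h2 with ⟨h2, -⟩ | ⟨h2, -⟩
              · exact Seg.left hsg h2 hiU
              · exact Seg.right hsg h2 hiU
        rw [← List.append_assoc] at hsg'
        have hsub' : A' ⊆ B ∪ (q' ++ q).toFinset := by
          rw [hq', List.toFinset_append]
          apply Finset.union_subset
          · refine hAB.trans (Finset.union_subset Finset.subset_union_left ?_)
            exact Finset.subset_union_right.trans Finset.subset_union_right
          · exact Finset.subset_union_left.trans Finset.subset_union_right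
        by_cases hc : A'.card + 1 + e + d ≤ n
        · exact ih i' hi' hi'S l0 (q' ++ q) A' B W' J' y'' p (hi'.le.trans hil) hsg' hst'' hfal''
            hvs' hA₀' hsub' hB hy'' hc hct' hph
        · have hpR : p ≤ n * R / d := by
            rw [Nat.le_div_iff_mul_le (by omega)]
            exact hph.trans (Pool.Agent.H20.RKS.ph_le R l0)
          by_cases hw : n ≤ (A₀ ∪ vs (line i')).card + 3 * d
          · left
            refine ⟨i', hi'S, ser_mono (ser_of hfal1 hys0 hfal'' hy'' hx hct' hw) ?_⟩
            have h1 : 2 * t * (p + 1) ≤ 2 * t * (n * R / d + 1) :=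
              Nat.mul_le_mul_left _ (by omega)
            have h2 : 2 * t * (p + 1) = 2 * t * p + 2 * t := by ring
            omega
          · push Not at hw
            obtain ⟨y3, W3, J3, hst3, heq3, hdst3⟩ :=
              hFGT n k m F j t d e s₀ hP y'' A' (A₀ ∪ vs (line i')) W' J' hst'' hsub (by omega)
            have hfal3 : Falsified (line i') y3 :=
              fls_congr hfal'' fun u hu => heq3 u (Finset.mem_union_right _ hu)
            have hph' : (p + 1) * d ≤ ph R ((q' ++ q) ++ l0) := by
              have h1 := Pool.Agent.H20.RKS.ph_add R 0 (q' ++ q) l0 (by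
                rw [Nat.le_zero, Finset.card_eq_zero, Finset.filter_eq_empty_iff]
                intro v _
                rw [not_lt]
                exact hseg l i' _ hlU.symm hsg' v)
              have h2 : A'.card ≤ B.card + (q' ++ q).toFinset.card :=
                (Finset.card_le_card hsub').trans (Finset.card_union_le _ _)
              have h3 : (p + 1) * d = p * d + d := by ring
              omega
            refine ih i' hi' hi'S ((q' ++ q) ++ l0) [] (A₀ ∪ vs (line i')) (A₀ ∪ vs (line i')) W3
              J3 y3 (p + 1) (hi'.le.trans hil) hsg' hst3 hfal3 Finset.subset_union_right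
              Finset.subset_union_left Finset.subset_union_left (by omega) (fun u hu => ?_)
              (by omega) ?_ hph'
            · rw [heq3 u (Finset.mem_union_left _ hu), hy'' u hu]
            · have h1 := cnt_le B₀ y'' y3 z
              have h2 : 2 * t * (p + 1) = 2 * t * p + 2 * t := by ring
              omega
  exact key l hlS [] [] B₀ B₀ W₁ J₁ ys 0 le_rfl Seg.refl hst1 hfal1 Finset.subset_union_right
    Finset.subset_union_left Finset.subset_union_left hn hys0 (by omega) (by omega) (by omega)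

end Pool.Agent.H78.RLM
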