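import Pool.Agent.H97.RL.Targets

/-! (RST) the values outside `A ∪ W` do not matter. -/

set_option autoImplicit false

open Finset Pool.Agent.H97.RK Pool.Agent.H97.RL

namespace Pool.Agent.H78.RLM

theorem pf_RST : T_RST := by
  intro n k m F j t y y' A W J h hy
  refine ⟨fun c hc => ?_, h.mem, fun c hc i hi => ?_, fun c hc hal => ?_, h.crd, h.lt⟩
  · obtain ⟨i, hi, hi'⟩ := h.sat c hc
    exact ⟨i, hi, by rw [hy _ hi, hi']⟩
  · rw [hy _ (Finset.mem_union_left _ (Finset.mem_sdiff.1 hi).1)]
    exact h.alv c hc i hi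
  · refine h.out c hc fun i hi => ?_
    rw [← hy _ (Finset.mem_union_left _ hi)]
    exact hal i hi

end Pool.Agent.H78.RLM
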